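import Pool.Agent.ANO.Defs

/-!
# The statement of phase 2 in short definitions

`MP_5e77d9_an`.  The same notions as in `Pool/Agent/ANO2/Defs.lean`, cut into short definitions in
terms of plain functions.
-/

set_option autoImplicit false

open scoped UpperHalfPlane MatrixGroups ComplexConjugate
open Set Filter Topology

namespace Pool.Agent.ANO2.Stmt

open Pool.Agent.ANO (X E toE dom ofE loc stretch tnorm IsHyperbolicMatrix)

/-- The action of `SL(2, ℝ)` on the upper half plane by Möbius transformations. -/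
noncomputable def act (γ : SL(2, ℝ)) (z : ℍ) : ℍ := γ • z

/-- `Γ` acts on `ℍ` freely (up to elements which act trivially), properly discontinuously and
cocompactly: `Γ \ ℍ` is a closed oriented hyperbolic surface with universal cover `ℍ`. -/
structure IsSurfaceGroup (Γ : Subgroup SL(2, ℝ)) : Prop where
  free : ∀ γ ∈ Γ, ∀ z : ℍ, act γ z = z → ∀ w : ℍ, act γ w = w
  proper : ∀ K : Set ℍ, IsCompact K → {γ : SL(2, ℝ) | γ ∈ Γ ∧ ∃ z ∈ K, act γ z ∈ K}.Finite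
  cocompact : ∃ K : Set ℍ, IsCompact K ∧ ∀ z : ℍ, ∃ γ ∈ Γ, act γ z ∈ K

/-- The inverse of the derivative of the Möbius transformation `γ`, to the power `2`:
`(c z + d)⁴ = (dγ/dz)⁻²`. -/
noncomputable def factor (γ : SL(2, ℝ)) (z : ℍ) : ℂ :=
  ((γ 1 0 : ℝ) * (z : ℂ) + (γ 1 1 : ℝ)) ^ 4

/-- `q dz²` is (the lift to `ℍ` of) a nonzero holomorphic quadratic differential on `Γ \ ℍ`. -/
structure IsQuadDiff (Γ : Subgroup SL(2, ℝ)) (q : ℂ → ℂ) : Prop where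
  holo : DifferentiableOn ℂ q {z : ℂ | 0 < z.im}
  nonzero : ∃ z : ℍ, q z ≠ 0
  equivar : ∀ γ ∈ Γ, ∀ z : ℍ, q (act γ z) = factor γ z * q z

/-- `f` is a lift to `ℍ` of a homeomorphism of the surface `Γ \ ℍ`. -/
structure IsHomeoLift (Γ : Subgroup SL(2, ℝ)) (f : ℍ → ℍ) : Prop where
  homeo : IsHomeomorph f
  normalizes : ∀ γ ∈ Γ, ∃ γ' ∈ Γ, ∀ z : ℍ, f (act γ z) = act γ' (f z)
  normalizes' : ∀ γ' ∈ Γ, ∃ γ ∈ Γ, ∀ z : ℍ, f (act γ z) = act γ' (f z)

/-- `D` is a natural coordinate of the quadratic differential `q` near `z`: a holomorphic function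
with `(D')² = q`. -/
def IsNatural (q D : ℂ → ℂ) (z : ℂ) : Prop :=
  AnalyticAt ℂ D z ∧ ∀ᶠ w in 𝓝 z, deriv D w ^ 2 = q w

/-- In natural coordinates of `q` at `z` and at `f z` the map `f` is equal to `L` near `z`. -/
def IsLocally (q : ℂ → ℂ) (L : ℂ → ℂ) (f : ℍ → ℍ) (z : ℍ) : Prop :=
  ∃ D₁ D₂ : ℂ → ℂ, IsNatural q D₁ z ∧ IsNatural q D₂ (f z) ∧ ∀ᶠ w : ℍ in 𝓝 z, D₂ (f w) = L (D₁ w)

/-- `f` is (a lift of) a pseudo-Anosov homeomorphism of `Γ \ ℍ` (orientation preserving or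
reversing), given by a holomorphic quadratic differential `q`: it preserves the set of zeros of `q`
and at all other points it is `x + i y ↦ l x + i l⁻¹ y` (or, everywhere, `l x - i l⁻¹ y`) in natural
coordinates of `q`, where `l > 1`. -/
def IsPseudoAnosov (Γ : Subgroup SL(2, ℝ)) (f : ℍ → ℍ) : Prop :=
  IsHomeoLift Γ f ∧ ∃ (q : ℂ → ℂ) (l : ℝ), IsQuadDiff Γ q ∧ 1 < l ∧
    (∀ z : ℍ, q z = 0 ↔ q (f z) = 0) ∧
    ((∀ z : ℍ, q z ≠ 0 → IsLocally q (stretch l) f z) ∨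
      ∀ z : ℍ, q z ≠ 0 → IsLocally q (fun w => conj (stretch l w)) f z)

/-- `f` is (a lift of) a homeomorphism of `Γ \ ℍ` which has finite order up to isotopy: a power
`f^m`, `m > 0`, induces an inner automorphism of the fundamental group `Γ`. -/
def IsPeriodic (Γ : Subgroup SL(2, ℝ)) (f : ℍ → ℍ) : Prop :=
  IsHomeoLift Γ f ∧ ∃ m : ℕ, 0 < m ∧ ∃ δ ∈ Γ, ∀ γ ∈ Γ, ∀ z : ℍ,
    f^[m] (act γ z) = act (δ * γ * δ⁻¹) (f^[m] z)

variable {r k : ℕ}

/-- Deck transformations of `X r k → S₁ × ⋯ × S_r × T^k`, `S_i = Γ_i \ ℍ`. -/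
def IsDeck (Γ : Fin r → Subgroup SL(2, ℝ)) (g : X r k → X r k) : Prop :=
  ∃ (γ : Fin r → SL(2, ℝ)) (v : Fin k → ℤ), (∀ i, γ i ∈ Γ i) ∧
    ∀ p, g p = (fun i => act (γ i) (p.1 i), fun j => p.2 j + v j)

/-- `τ : ℍ^r → ℝ^k` induces a continuous map `S₁ × ⋯ × S_r → T^k`. -/
structure IsTwist (Γ : Fin r → Subgroup SL(2, ℝ)) (τ : (Fin r → ℍ) → (Fin k → ℝ)) : Prop where
  cont : Continuous τ
  equivar : ∀ γ : Fin r → SL(2, ℝ), (∀ i, γ i ∈ Γ i) → ∃ v : Fin k → ℤ,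
    ∀ z : Fin r → ℍ, τ (fun i => act (γ i) (z i)) = fun j => τ z j + v j

/-- The map `(z, t) ↦ (f₁ z₁, …, f_r z_r, A t + τ z)`. -/
noncomputable def model (f : Fin r → ℍ → ℍ) (A : Matrix (Fin k) (Fin k) ℤ)
    (τ : (Fin r → ℍ) → (Fin k → ℝ)) (p : X r k) : X r k :=
  (fun i => f i (p.1 i), fun j => (A.map (Int.cast : ℤ → ℝ)).mulVec p.2 j + τ p.1 j)

/-- The maps of `M` induced by `G₀` and `G` are homotopic by a homotopy which lifts to one of `G₀`
and `G`: since `X r k` is contractible this means that for every deck transformation `g` one has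
`G₀ g = g' G₀`, `G g = g' G` with the same deck transformation `g'`. -/
def Homotopic (Γ : Fin r → Subgroup SL(2, ℝ)) (G₀ G : X r k → X r k) : Prop :=
  ∀ g, IsDeck Γ g → ∃ g', IsDeck Γ g' ∧ G₀ ∘ g = g' ∘ G₀ ∧ G ∘ g = g' ∘ G

/-- `G` is of class `C¹`. -/
def IsC1 (G : X r k → X r k) : Prop := ContDiffOn ℝ 1 (loc G) (dom r k)

/-- The derivative of `G` at `p` (in the coordinates of `ℂ^r × ℝ^k`). -/
noncomputable def dmap (G : X r k → X r k) (p : X r k) (v : E r k) : E r k :=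
  fderiv ℝ (loc G) (toE p) v

/-- `F` is a lift to `X r k` of a `C¹` diffeomorphism of `M = S₁ × ⋯ × S_r × T^k`, and `G` is its
inverse. -/
structure IsDiffeoLift (Γ : Fin r → Subgroup SL(2, ℝ)) (F G : X r k → X r k) : Prop where
  left_inv : ∀ p, G (F p) = p
  right_inv : ∀ p, F (G p) = p
  smooth : IsC1 F
  smooth_inv : IsC1 G
  normalizes : ∀ g, IsDeck Γ g → ∃ g', IsDeck Γ g' ∧ F ∘ g = g' ∘ F
  normalizes' : ∀ g', IsDeck Γ g' → ∃ g, IsDeck Γ g ∧ F ∘ g = g' ∘ F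

/-- `P` is (the lift of) a continuous `DF`-invariant splitting `TM = E^u ⊕ E^s`, given by the
projections `P p` of the tangent space at `p` onto `E^u` with kernel `E^s`. -/
structure IsSplitting (Γ : Fin r → Subgroup SL(2, ℝ)) (F : X r k → X r k)
    (P : X r k → E r k → E r k) : Prop where
  cont : Continuous fun q : X r k × E r k => P q.1 q.2
  linear : ∀ p, IsLinearMap ℝ (P p)
  proj : ∀ p v, P p (P p v) = P p v
  deck : ∀ g, IsDeck Γ g → ∀ p v, P (g p) (dmap g p v) = dmap g p (P p v)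
  inv : ∀ p v, P (F p) (dmap F p v) = dmap F p (P p v)

/-- `F` is a lift to `X r k` of a `C¹` Anosov diffeomorphism of `M = S₁ × ⋯ × S_r × T^k`: there are
a continuous invariant splitting `E^u ⊕ E^s` and constants `C > 0`, `0 < μ < 1` such that
`‖DFⁿ v‖ ≤ C μⁿ ‖v‖` for `v ∈ E^s` and `‖DF⁻ⁿ v‖ ≤ C μⁿ ‖v‖` for `v ∈ E^u`, `n ≥ 0`, in the deck
invariant norm `tnorm`. -/
def IsAnosovLift (Γ : Fin r → Subgroup SL(2, ℝ)) (F : X r k → X r k) : Prop :=
  ∃ (G : X r k → X r k) (P : X r k → E r k → E r k), IsDiffeoLift Γ F G ∧ IsSplitting Γ F P ∧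
    ∃ C μ : ℝ, 0 < C ∧ 0 < μ ∧ μ < 1 ∧ ∀ (n : ℕ) (p : X r k) (v : E r k),
      (P p v = 0 → tnorm (F^[n] p) (dmap F^[n] p v) ≤ C * μ ^ n * tnorm p v) ∧
      (P p v = v → tnorm (G^[n] p) (dmap G^[n] p v) ≤ C * μ ^ n * tnorm p v)

end Pool.Agent.ANO2.Stmt
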