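import Pool.Agent.ANO2.Stmt.Power

/-!
# ANO phase 2: the theorem in the final form, from `MainStatement`
-/

set_option autoImplicit false

open scoped UpperHalfPlane MatrixGroups ComplexConjugate
open Set Filter Topology

namespace Pool.Agent.ANO2.Stmt

open Pool.Agent.ANO (X E toE dom ofE loc stretch tnorm IsHyperbolicMatrix)

variable {r k : ℕ}

theorem homeo_iterate {f : ℍ → ℍ} (hf : IsHomeomorph f) (N : ℕ) :
    ∃ h : ℍ ≃ₜ ℍ, ⇑h = f^[N] := by
  induction N with
  | zero => exact ⟨Homeomorph.refl ℍ, rfl⟩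
  | succ n ih =>
    obtain ⟨h, hh⟩ := ih
    refine ⟨(hf.homeomorph f).trans h, ?_⟩
    funext z
    rw [Function.iterate_succ_apply, ← hh]
    rfl

theorem pa_surface {Γ : Subgroup SL(2, ℝ)} (hΓ : IsSurfaceGroup Γ) {f : ℍ → ℍ}
    (hf : IsPseudoAnosov Γ f) {c : ℕ} (hc : 0 < c) : ∃ S : SurfaceMap, S.Γ = Γ ∧
      (∃ q l, IsPA S q l) ∧ ⇑S.f = f^[2 * c] := by
  obtain ⟨hfl, q, l, hq, hl, hz, hloc⟩ := hf
  have hN : 0 < 2 * c := by omega
  have hlift := hfl.iterate (2 * c)
  obtain ⟨h, hh⟩ := homeo_iterate hfl.homeo (2 * c)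
  let S : SurfaceMap :=
    { Γ := Γ
      free := hΓ.free
      proper := hΓ.proper
      cocompact := hΓ.cocompact
      f := h
      normalizes := by rw [hh]; exact hlift.normalizes
      normalizes' := by rw [hh]; exact hlift.normalizes' }
  have hzN : ∀ z : ℍ, q z = 0 ↔ q (f^[2 * c] z) = 0 := by
    have : ∀ n : ℕ, ∀ z : ℍ, q z = 0 ↔ q (f^[n] z) = 0 := by
      intro n
      induction n with
      | zero => exact fun z => Iff.rfl
      | succ n ih => intro z; rw [hz z, ih (f z), Function.iterate_succ_apply]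
    exact this _
  have hloc' : ∀ z : ℍ, q z ≠ 0 → IsLocally q (stretch (l ^ (2 * c))) f^[2 * c] z := by
    intro z hqz
    rcases hloc with hloc | hloc
    · have := IsLocally.iterate (stretch_add l) (stretch_neg l) hfl.homeo.continuous hz hloc hN z hqz
      rwa [stretch_iterate] at this
    · have := IsLocally.iterate (L := fun w => conj (stretch l w))
        (fun a b => by rw [stretch_add, map_add]) (fun a => by rw [stretch_neg, map_neg])
        hfl.homeo.continuous hz hloc hN z hqz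
      rwa [conj_stretch_iterate] at this
  refine ⟨S, rfl, ⟨q, l ^ (2 * c), ?_⟩, hh⟩
  have hSf : ∀ z, S.f z = f^[2 * c] z := fun z => congrFun hh z
  refine ⟨⟨hq.holo, hq.nonzero, hq.equivar⟩, one_lt_pow₀ hl hN.ne', ?_, ?_⟩
  · intro z
    rw [hSf]
    exact hzN z
  · intro z hqz
    obtain ⟨D₁, D₂, h1, h2, h3⟩ := hloc' z hqz
    refine ⟨D₁, D₂, h1.1, ?_, h1.2, ?_, ?_⟩
    · rw [hSf]; exact h2.1
    · rw [hSf]; exact h2.2
    · filter_upwards [h3] with w hw
      rw [hSf]; exact hw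

theorem periodic_surface {Γ : Subgroup SL(2, ℝ)} (hΓ : IsSurfaceGroup Γ) {δ : SL(2, ℝ)}
    (hδ : δ ∈ Γ) : ∃ S : SurfaceMap, S.Γ = Γ ∧ IsInner S ∧ ∀ z, S.f z = act δ z := by
  let h : ℍ ≃ₜ ℍ := (IsometryEquiv.constSMul δ).toHomeomorph
  have hh : ∀ z : ℍ, h z = act δ z := fun z => rfl
  let S : SurfaceMap :=
    { Γ := Γ
      free := hΓ.free
      proper := hΓ.proper
      cocompact := hΓ.cocompact
      f := h
      normalizes := fun γ hγ => ⟨δ * γ * δ⁻¹, Γ.mul_mem (Γ.mul_mem hδ hγ) (Γ.inv_mem hδ),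
        fun z => by
          show δ • γ • z = (δ * γ * δ⁻¹) • δ • z
          rw [← mul_smul, ← mul_smul]
          congr 1
          group⟩
      normalizes' := fun γ hγ => ⟨δ⁻¹ * γ * δ, Γ.mul_mem (Γ.mul_mem (Γ.inv_mem hδ) hγ) hδ,
        fun z => by
          show δ • (δ⁻¹ * γ * δ) • z = γ • δ • z
          rw [← mul_smul, ← mul_smul]
          congr 1
          group⟩ }
  exact ⟨S, rfl, ⟨δ, hδ, fun z => rfl⟩, fun z => rfl⟩

theorem exists_surface {Γ : Subgroup SL(2, ℝ)} (hΓ : IsSurfaceGroup Γ) {f : ℍ → ℍ}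
    (hf : IsPseudoAnosov Γ f ∨ IsPeriodic Γ f) : ∃ m : ℕ, 0 < m ∧ ∀ c : ℕ, 0 < c →
      ∃ S : SurfaceMap, S.Γ = Γ ∧ ((∃ q l, IsPA S q l) ∨ IsInner S) ∧
        ∀ γ ∈ Γ, ∀ γ', (∀ z, f^[m * c] (act γ z) = act γ' (f^[m * c] z)) →
          ∀ z, S.f (act γ z) = act γ' (S.f z) := by
  rcases hf with hf | hf
  · refine ⟨2, two_pos, fun c hc => ?_⟩
    obtain ⟨S, hS, hPA, hSf⟩ := pa_surface hΓ hf hc
    exact ⟨S, hS, Or.inl hPA, fun γ _ γ' h => by rw [hSf]; exact h⟩
  · obtain ⟨hfl, m, hm, δ, hδ, hin⟩ := hf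
    refine ⟨m, hm, fun c hc => ?_⟩
    obtain ⟨δ', hδ', h'⟩ := inner_iterate hδ hin c
    obtain ⟨S, hS, hI, hSf⟩ := periodic_surface hΓ hδ'
    refine ⟨S, hS, Or.inr hI, fun γ hγ γ' h z => ?_⟩
    have hsurj : Function.Surjective f^[m * c] := hfl.homeo.surjective.iterate _
    obtain ⟨y, hy⟩ := hsurj (act δ' z)
    rw [hSf, hSf, ← hy, ← h, h' γ hγ, hy, ← act_mul, ← act_mul]
    congr 1
    group

theorem continuous_of_isC1 {G : X r k → X r k} (hG : IsC1 G) : Continuous G := by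
  have h1 : ContinuousOn (loc G) (dom r k) := hG.continuousOn
  have h2 : ContinuousOn (fun x => ofE (loc G x)) (dom r k) :=
    Pool.Agent.ANO.Idx.continuousOn_ofE.comp h1 fun x _ => Pool.Agent.ANO.Idx.toE_mem _
  have h3 : Continuous fun p : X r k => ofE (loc G (toE p)) :=
    h2.comp_continuous Pool.Agent.ANO.Idx.continuous_toE Pool.Agent.ANO.Idx.toE_mem
  refine h3.congr fun p => ?_
  show ofE (toE (G (ofE (toE p)))) = G p
  rw [Pool.Agent.ANO.Idx.ofE_toE, Pool.Agent.ANO.Idx.ofE_toE]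

theorem pow_apply (F : X r k ≃ₜ X r k) (n : ℕ) : ⇑(F ^ n) = (⇑F)^[n] := by
  induction n with
  | zero => rfl
  | succ n ih =>
    funext p
    rw [pow_succ', Function.iterate_succ_apply']
    show F ((F ^ n) p) = _
    rw [ih]

theorem pow_symm_apply (F : X r k ≃ₜ X r k) (n : ℕ) : ⇑(F ^ n).symm = (⇑F.symm)^[n] := by
  induction n with
  | zero => rfl
  | succ n ih =>
    funext p
    rw [Function.iterate_succ_apply, ← ih]
    apply (F ^ (n + 1)).injective
    rw [Homeomorph.apply_symm_apply, pow_succ']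
    show p = F ((F ^ n) ((F ^ n).symm (F.symm p)))
    rw [Homeomorph.apply_symm_apply, Homeomorph.apply_symm_apply]

/-- The two forms of the notion of an Anosov diffeomorphism. -/
theorem IsAnosovLift.toHomeo {S : Fin r → SurfaceMap} {F : X r k → X r k}
    (hF : IsAnosovLift (fun i => (S i).Γ) F) : ∃ F' : X r k ≃ₜ X r k, ⇑F' = F ∧
      ANO2.IsAnosovLift (surf S) F' := by
  obtain ⟨G, P, hFG, hP, C, μ, hC, hμ0, hμ1, hexp⟩ := hF
  let F' : X r k ≃ₜ X r k :=
    { toFun := F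
      invFun := G
      left_inv := hFG.left_inv
      right_inv := hFG.right_inv
      continuous_toFun := continuous_of_isC1 hFG.smooth
      continuous_invFun := continuous_of_isC1 hFG.smooth_inv }
  let P' : X r k → (E r k →L[ℝ] E r k) := fun p => (hP.linear p).mk'.toContinuousLinearMap
  refine ⟨F', rfl, hFG.smooth, hFG.smooth_inv, hFG.normalizes,
    hFG.normalizes', P', ?_, ?_, ?_, ?_, C, μ, hC, hμ0, hμ1, ?_⟩
  · rw [continuous_clm_apply]
    intro v
    exact hP.cont.comp (Continuous.prodMk_left v)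
  · intro p
    apply ContinuousLinearMap.ext
    intro v
    exact hP.proj p v
  · intro g hg p
    apply ContinuousLinearMap.ext
    intro v
    exact hP.deck g hg p v
  · intro p
    apply ContinuousLinearMap.ext
    intro v
    exact hP.inv p v
  · intro m p v
    have h := hexp m p v
    rw [pow_apply, pow_symm_apply]
    exact h

theorem Homotopic.iterate {Γ : Fin r → Subgroup SL(2, ℝ)} {G₀ G : X r k → X r k}
    (h : Homotopic Γ G₀ G) (n : ℕ) : Homotopic Γ G₀^[n] G^[n] := by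
  induction n with
  | zero => exact fun g hg => ⟨g, hg, rfl, rfl⟩
  | succ n ih =>
    intro g hg
    obtain ⟨g1, hg1, h1, h1'⟩ := h g hg
    obtain ⟨g2, hg2, h2, h2'⟩ := ih g1 hg1
    refine ⟨g2, hg2, ?_, ?_⟩
    · rw [Function.iterate_succ, Function.comp_assoc, h1, ← Function.comp_assoc, h2,
        Function.comp_assoc]
    · rw [Function.iterate_succ, Function.comp_assoc, h1', ← Function.comp_assoc, h2',
        Function.comp_assoc]

theorem model_fst (f : Fin r → ℍ → ℍ) (A : Matrix (Fin k) (Fin k) ℤ)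
    (τ : (Fin r → ℍ) → (Fin k → ℝ)) (N : ℕ) (p : X r k) (i : Fin r) :
    ((model f A τ)^[N] p).1 i = (f i)^[N] (p.1 i) := by
  induction N generalizing p with
  | zero => rfl
  | succ n ih => rw [Function.iterate_succ_apply, ih, Function.iterate_succ_apply]; rfl

theorem model_snd (f : Fin r → ℍ → ℍ) (A : Matrix (Fin k) (Fin k) ℤ)
    (τ : (Fin r → ℍ) → (Fin k → ℝ)) (N : ℕ) (z : Fin r → ℍ) (t t' : Fin k → ℝ) :
    ((model f A τ)^[N] (z, t)).2 - ((model f A τ)^[N] (z, t')).2 =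
      ((A ^ N).map (Int.cast : ℤ → ℝ)).mulVec (t - t') := by
  induction N generalizing z t t' with
  | zero =>
    rw [pow_zero]
    have h1 : (1 : Matrix (Fin k) (Fin k) ℤ).map (Int.cast : ℤ → ℝ) = 1 :=
      map_one (Int.castRingHom ℝ).mapMatrix
    rw [h1, Matrix.one_mulVec]
    rfl
  | succ n ih =>
    rw [Function.iterate_succ_apply, Function.iterate_succ_apply]
    have h2 : (A ^ (n + 1)).map (Int.cast : ℤ → ℝ) =
        (A ^ n).map (Int.cast : ℤ → ℝ) * A.map (Int.cast : ℤ → ℝ) := by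
      have h3 := map_mul (Int.castRingHom ℝ).mapMatrix (A ^ n) A
      rw [pow_succ]
      exact h3
    have h4 := ih (fun i => f i (z i)) (fun j => (A.map (Int.cast : ℤ → ℝ)).mulVec t j + τ z j)
      (fun j => (A.map (Int.cast : ℤ → ℝ)).mulVec t' j + τ z j)
    rw [h2, ← Matrix.mulVec_mulVec, Matrix.mulVec_sub]
    have h5 : (fun j => (A.map (Int.cast : ℤ → ℝ)).mulVec t j + τ z j) -
        (fun j => (A.map (Int.cast : ℤ → ℝ)).mulVec t' j + τ z j) =
        (A.map (Int.cast : ℤ → ℝ)).mulVec t - (A.map (Int.cast : ℤ → ℝ)).mulVec t' := by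
      funext j
      simp only [Pi.sub_apply]
      ring
    rw [h5] at h4
    exact h4

theorem continuous_model {f : Fin r → ℍ → ℍ} (hf : ∀ i, Continuous (f i))
    (A : Matrix (Fin k) (Fin k) ℤ) {τ : (Fin r → ℍ) → (Fin k → ℝ)} (hτ : Continuous τ) :
    Continuous (model f A τ) := by
  unfold model
  refine Continuous.prodMk ?_ ?_
  · exact continuous_pi fun i => (hf i).comp ((continuous_apply i).comp continuous_fst)
  · exact (continuous_const.matrix_mulVec continuous_snd).add (hτ.comp continuous_fst)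

/-- No power of an Anosov diffeomorphism of `S₁ × ⋯ × S_r × T^k`, `r ≥ 1`, is homotopic to a map
`(z, t) ↦ (f₁ z₁, …, f_r z_r, A t + τ z)` with `f_i` pseudo-Anosov or periodic up to isotopy and `A`
hyperbolic. -/
theorem main (hmain : MainStatement) (r k : ℕ) (hr : 0 < r) (Γ : Fin r → Subgroup SL(2, ℝ))
    (hΓ : ∀ i, IsSurfaceGroup (Γ i)) (f : Fin r → ℍ → ℍ)
    (hf : ∀ i, IsPseudoAnosov (Γ i) (f i) ∨ IsPeriodic (Γ i) (f i))
    (A : Matrix (Fin k) (Fin k) ℤ) (hA : IsHyperbolicMatrix A) (τ : (Fin r → ℍ) → (Fin k → ℝ))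
    (hτ : IsTwist Γ τ) (F : X r k → X r k)
    (hF : IsAnosovLift Γ F) (n : ℕ) (hn : 0 < n) : ¬ Homotopic Γ (model f A τ) F^[n] := by
  classical
  intro hhom
  have hfc : ∀ i, Continuous (f i) := fun i => by
    rcases hf i with h | h
    · exact h.1.homeo.continuous
    · exact h.1.homeo.continuous
  have hfs : ∀ i, Function.Surjective (f i) := fun i => by
    rcases hf i with h | h
    · exact h.1.homeo.surjective
    · exact h.1.homeo.surjective
  choose m hm hS using fun i => exists_surface (hΓ i) (hf i)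
  set N := ∏ i, m i with hN
  have hNpos : 0 < N := Finset.prod_pos fun i _ => hm i
  have hsurf : ∀ i, ∃ S : SurfaceMap, S.Γ = Γ i ∧ ((∃ q l, IsPA S q l) ∨ IsInner S) ∧
      ∀ γ ∈ Γ i, ∀ γ', (∀ z, (f i)^[N] (act γ z) = act γ' ((f i)^[N] z)) →
        ∀ z, S.f (act γ z) = act γ' (S.f z) := by
    intro i
    have h1 : N = m i * ∏ j ∈ Finset.univ.erase i, m j := by
      rw [hN, Finset.mul_prod_erase Finset.univ m (Finset.mem_univ i)]
    rw [h1]
    exact hS i _ (Finset.prod_pos fun j _ => hm j)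
  choose S hSΓ hSt hSc using hsurf
  obtain rfl : Γ = fun i => (S i).Γ := funext fun i => (hSΓ i).symm
  obtain ⟨F', hF'c, hF'⟩ := hF.toHomeo
  have hdeck : ∀ g : X r k → X r k, IsDeck (fun i => (S i).Γ) g ↔ ANO2.IsDeck (surf S) k g :=
    fun g => Iff.rfl
  have hhN : Homotopic (fun i => (S i).Γ) (model f A τ)^[N] (F^[n])^[N] := hhom.iterate N
  -- the new twist
  set τN : (Fin r → ℍ) → (Fin k → ℝ) := fun z => ((model f A τ)^[N] (z, 0)).2 with hτN
  have hmodel : ∀ p : X r k, ((model f A τ)^[N] p).2 =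
      ((A ^ N).map (Int.cast : ℤ → ℝ)).mulVec p.2 + τN p.1 := by
    intro p
    have h1 := model_snd f A τ N p.1 p.2 0
    rw [sub_zero] at h1
    rw [← h1, hτN]
    show _ = _ - _ + _
    rw [sub_add_cancel]
  have hτNc : Continuous τN :=
    continuous_snd.comp (((continuous_model hfc A hτ.cont).iterate N).comp
      (continuous_id.prodMk continuous_const))
  have hrel : ∀ (γ : Fin r → SL(2, ℝ)) (v : Fin k → ℤ), (∀ i, γ i ∈ (S i).Γ) →
      ∃ (γ' : Fin r → SL(2, ℝ)) (v' : Fin k → ℤ), (∀ i, γ' i ∈ (S i).Γ) ∧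
        (∀ i z, (f i)^[N] (act (γ i) z) = act (γ' i) ((f i)^[N] z)) ∧
        (∀ z : Fin r → ℍ, ∀ t : Fin k → ℝ,
          ((A ^ N).map (Int.cast : ℤ → ℝ)).mulVec (fun j => t j + (v j : ℝ)) +
            τN (fun i => act (γ i) (z i)) =
          (fun j => (((A ^ N).map (Int.cast : ℤ → ℝ)).mulVec t + τN z) j + (v' j : ℝ))) ∧
        ∀ p, (F^[n])^[N] (fun i => act (γ i) (p.1 i), fun j => p.2 j + (v j : ℝ)) =
          (fun i => act (γ' i) (((F^[n])^[N] p).1 i), fun j => ((F^[n])^[N] p).2 j + (v' j : ℝ)) := by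
    intro γ v hγ
    obtain ⟨g', ⟨γ', v', hγ', hg'⟩, h1, h2⟩ := hhN
      (fun p => (fun i => act (γ i) (p.1 i), fun j => p.2 j + (v j : ℝ))) ⟨γ, v, hγ, fun p => rfl⟩
    refine ⟨γ', v', hγ', fun i z => ?_, fun z t => ?_, fun p => ?_⟩
    · have h3 := congrArg (fun q : X r k => q.1 i) (congrFun h1 (fun _ => z, 0))
      simp only [Function.comp_apply] at h3
      rw [model_fst, hg'] at h3
      rw [h3]
      show act (γ' i) (((model f A τ)^[N] (fun _ => z, 0)).1 i) = _
      rw [model_fst]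
    · have h3 := congrArg (fun q : X r k => q.2) (congrFun h1 (z, t))
      simp only [Function.comp_apply] at h3
      rw [hmodel, hg'] at h3
      have h4 := hmodel (z, t)
      simp only at h3 h4
      rw [h3, h4]
    · have h3 := congrFun h2 p
      simp only [Function.comp_apply] at h3
      rw [h3, hg']
  have hτN' : ANO2.IsTwist (surf S) τN := by
    refine ⟨hτNc, fun γ hγ => ?_⟩
    obtain ⟨γ', v', hγ', h1, h2, h3⟩ := hrel γ (fun _ => 0) hγ
    refine ⟨v', fun z => ?_⟩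
    have h4 := h2 z 0
    have h5 : (fun j => (0 : Fin k → ℝ) j + (((fun _ => 0 : Fin k → ℤ) j : ℤ) : ℝ)) = 0 := by
      funext j
      simp
    rw [h5, Matrix.mulVec_zero, zero_add, zero_add] at h4
    exact h4
  refine hmain r k hr S hSt (A ^ N) (hyperbolic_pow' hA hNpos) τN hτN' F' hF' (n * N)
    (Nat.mul_pos hn hNpos) ?_
  rintro g ⟨γ, v, hγ, hg⟩
  obtain ⟨γ', v', hγ', h1, h2, h3⟩ := hrel γ v hγ
  refine ⟨fun p => (fun i => act (γ' i) (p.1 i), fun j => p.2 j + (v' j : ℝ)),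
    ⟨γ', v', hγ', fun p => rfl⟩, ?_, ?_⟩
  · funext p
    rw [Function.comp_apply, Function.comp_apply, hg]
    refine Prod.ext ?_ ?_
    · funext i
      exact hSc i (γ i) (hγ i) (γ' i) (h1 i) (p.1 i)
    · exact h2 p.1 p.2
  · funext p
    have h4 : ⇑(F' ^ (n * N)) = (F^[n])^[N] := by
      rw [pow_apply, hF'c, Function.iterate_mul]
    rw [Function.comp_apply, Function.comp_apply, hg, h4]
    exact h3 p

end Pool.Agent.ANO2.Stmt
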