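import Pool.Agent.ANO2.Stmt.Defs
import Pool.Agent.ANO2.Defs
import Pool.Agent.ANO.Idx.ModelF
import Pool.Agent.ANO.Asm.Model

/-!
# ANO phase 2: powers (for the final form of the statement)
-/

set_option autoImplicit false

open scoped UpperHalfPlane MatrixGroups ComplexConjugate
open Set Filter Topology

namespace Pool.Agent.ANO2.Stmt

open Pool.Agent.ANO (X E toE dom ofE loc stretch tnorm IsHyperbolicMatrix)

variable {r k : ℕ}

/-- Powers of a hyperbolic matrix are hyperbolic. -/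
theorem hyperbolic_pow' {A : Matrix (Fin k) (Fin k) ℤ} (hA : IsHyperbolicMatrix A) {M : ℕ}
    (hM : 0 < M) : IsHyperbolicMatrix (A ^ M) := by
  refine ⟨?_, fun z hz h1 => ?_⟩
  · rw [Matrix.det_pow]
    exact hA.1.pow M
  · have h2 : (A ^ M).map (Int.cast : ℤ → ℂ) = (A.map (Int.cast : ℤ → ℂ)) ^ M :=
      map_pow (Int.castRingHom ℂ).mapMatrix A M
    rw [h2] at hz
    have h3 := Matrix.mem_spectrum_iff_isRoot_charpoly.2 hz
    rw [spectrum.map_pow_of_pos _ hM] at h3
    obtain ⟨w, hw, hw1⟩ := h3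
    refine hA.2 w (Matrix.mem_spectrum_iff_isRoot_charpoly.1 hw) ?_
    have h4 : ‖w‖ ^ M = 1 := by
      rw [← norm_pow]
      have h5 : w ^ M = z := hw1
      rw [h5, h1]
    exact (pow_eq_one_iff_of_nonneg (norm_nonneg w) hM.ne').1 h4

/-! ### Natural coordinates -/

/-- Two natural coordinates differ by a sign and a constant. -/
theorem natural_unique {q D D' : ℂ → ℂ} {a : ℂ} (h : IsNatural q D a) (h' : IsNatural q D' a) :
    ∃ ε c : ℂ, (ε = 1 ∨ ε = -1) ∧ ∀ᶠ w in 𝓝 a, D' w = ε * D w + c := by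
  have key : ∀ E : ℂ → ℂ, AnalyticAt ℂ E a → (∀ᶠ w in 𝓝 a, deriv E w = 0) →
      ∀ᶠ w in 𝓝 a, E w = E a := by
    intro E hE hd
    have h1 : ∀ᶠ w in 𝓝 a, DifferentiableAt ℂ E w :=
      hE.eventually_analyticAt.mono fun w hw => hw.differentiableAt
    obtain ⟨ρ, hρ, hball⟩ := Metric.eventually_nhds_iff_ball.1 (h1.and hd)
    refine Metric.eventually_nhds_iff_ball.2 ⟨ρ, hρ, fun w hw => ?_⟩
    have hdiff : DifferentiableOn ℂ E (Metric.ball a ρ) := fun x hx =>
      (hball x hx).1.differentiableWithinAt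
    have hz : ∀ x ∈ Metric.ball a ρ, fderivWithin ℂ E (Metric.ball a ρ) x = 0 := by
      intro x hx
      rw [fderivWithin_of_isOpen Metric.isOpen_ball hx]
      apply ContinuousLinearMap.ext_ring
      rw [fderiv_apply_one_eq_deriv, (hball x hx).2]
      rfl
    exact (convex_ball a ρ).is_const_of_fderivWithin_eq_zero (𝕜 := ℂ) hdiff hz hw
      (Metric.mem_ball_self hρ)
  have hprod : ∀ᶠ w in 𝓝 a, (deriv D' w - deriv D w) * (deriv D' w + deriv D w) = 0 := by
    filter_upwards [h.2, h'.2] with w h1 h2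
    linear_combination h2 - h1
  have ha : AnalyticAt ℂ (fun w => deriv D' w - deriv D w) a := h'.1.deriv.sub h.1.deriv
  have hda : ∀ᶠ w in 𝓝 a, DifferentiableAt ℂ D w ∧ DifferentiableAt ℂ D' w := by
    filter_upwards [h.1.eventually_analyticAt, h'.1.eventually_analyticAt] with w h1 h2
    exact ⟨h1.differentiableAt, h2.differentiableAt⟩
  rcases ha.eventually_eq_zero_or_eventually_ne_zero with h1 | h1
  · refine ⟨1, D' a - D a, Or.inl rfl, ?_⟩
    have h2 : ∀ᶠ w in 𝓝 a, (D' - D) w = (D' - D) a := by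
      refine key (D' - D) (h'.1.sub h.1) ?_
      filter_upwards [h1, hda] with w h3 h4
      rw [deriv_sub h4.2 h4.1]
      exact h3
    filter_upwards [h2] with w h3
    have h4 : D' w - D w = D' a - D a := h3
    linear_combination h4
  · refine ⟨-1, D' a + D a, Or.inr rfl, ?_⟩
    have hb : AnalyticAt ℂ (fun w => deriv D' w + deriv D w) a := h'.1.deriv.add h.1.deriv
    have h1' : ∀ᶠ w in 𝓝 a, deriv D' w + deriv D w = 0 := by
      rcases hb.eventually_eq_zero_or_eventually_ne_zero with h2 | h2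
      · exact h2
      · exfalso
        have h3 : ∀ᶠ w in 𝓝[≠] a, False := by
          filter_upwards [h1, h2, hprod.filter_mono nhdsWithin_le_nhds] with w e1 e2 e3
          exact (mul_ne_zero e1 e2) e3
        exact (NormedField.nhdsNE_neBot a).ne (by rwa [eventually_false_iff_eq_bot] at h3)
    have h2 : ∀ᶠ w in 𝓝 a, (D' + D) w = (D' + D) a := by
      refine key (D' + D) (h'.1.add h.1) ?_
      filter_upwards [h1', hda] with w h3 h4
      rw [deriv_add h4.2 h4.1]
      exact h3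
    filter_upwards [h2] with w h3
    have h4 : D' w + D w = D' a + D a := h3
    linear_combination h4

theorem IsNatural.affine {q D : ℂ → ℂ} {a : ℂ} (h : IsNatural q D a) {ε : ℂ}
    (hε : ε = 1 ∨ ε = -1) (c : ℂ) : IsNatural q (fun w => ε * (D w - c)) a := by
  refine ⟨(analyticAt_const).mul (h.1.sub analyticAt_const), ?_⟩
  filter_upwards [h.2, h.1.eventually_analyticAt] with w h1 h2
  have h3 : deriv (fun w => ε * (D w - c)) w = ε * deriv D w := by
    rw [deriv_const_mul_field, deriv_sub_const]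
  rw [h3, mul_pow, h1]
  rcases hε with rfl | rfl <;> ring

/-- Composition in natural coordinates. -/
theorem IsLocally.comp {q L L' : ℂ → ℂ} {f f' : ℍ → ℍ} {z : ℍ}
    (hadd : ∀ a b, L' (a + b) = L' a + L' b) (hneg : ∀ a, L' (-a) = -L' a)
    (hf : ContinuousAt f z) (h : IsLocally q L f z) (h' : IsLocally q L' f' (f z)) :
    IsLocally q (fun w => L' (L w)) (fun w => f' (f w)) z := by
  obtain ⟨D₁, D₂, h1, h2, h3⟩ := h
  obtain ⟨D₁', D₂', h1', h2', h3'⟩ := h'
  obtain ⟨ε, c, hε, hc⟩ := natural_unique h2 h1'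
  have hεε : ε * ε = 1 := by rcases hε with rfl | rfl <;> norm_num
  have hmul : ∀ a, L' (ε * a) = ε * L' a := by
    intro a
    rcases hε with rfl | rfl
    · rw [one_mul, one_mul]
    · rw [neg_one_mul, hneg, neg_one_mul]
  refine ⟨D₁, fun w => ε * (D₂' w - L' c), h1, h2'.affine hε _, ?_⟩
  have hcoe : Tendsto (fun w : ℍ => ((f w : ℍ) : ℂ)) (𝓝 z) (𝓝 ((f z : ℍ) : ℂ)) :=
    (UpperHalfPlane.continuous_coe.tendsto (f z)).comp hf.tendsto
  filter_upwards [h3, hf.tendsto.eventually h3', hcoe.eventually hc] with w e1 e2 e3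
  show ε * (D₂' ((f' (f w) : ℍ) : ℂ) - L' c) = L' (L (D₁ w))
  rw [e2, e3, e1, hadd, hmul, add_sub_cancel_right, ← mul_assoc, hεε, one_mul]

theorem IsLocally.iterate {q L : ℂ → ℂ} {f : ℍ → ℍ} (hadd : ∀ a b, L (a + b) = L a + L b)
    (hneg : ∀ a, L (-a) = -L a) (hf : Continuous f) (hz : ∀ z : ℍ, q z = 0 ↔ q (f z) = 0)
    (h : ∀ z : ℍ, q z ≠ 0 → IsLocally q L f z) {N : ℕ} (hN : 0 < N) (z : ℍ) (hq : q z ≠ 0) :
    IsLocally q L^[N] f^[N] z := by
  induction N, hN using Nat.le_induction generalizing z with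
  | base => exact h z hq
  | succ n hn ih =>
    have h1 := (h z hq).comp (L' := L^[n]) (f' := f^[n]) ?_ ?_ hf.continuousAt
      (ih (f z) fun h2 => hq ((hz z).2 h2))
    · exact h1
    · intro a b
      have : ∀ n : ℕ, ∀ a b, L^[n] (a + b) = L^[n] a + L^[n] b := by
        intro n
        induction n with
        | zero => exact fun a b => rfl
        | succ n ih => intro a b; rw [Function.iterate_succ_apply, hadd, ih]; rfl
      exact this n a b
    · intro a
      have : ∀ n : ℕ, ∀ a, L^[n] (-a) = -L^[n] a := by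
        intro n
        induction n with
        | zero => exact fun a => rfl
        | succ n ih => intro a; rw [Function.iterate_succ_apply, hneg, ih]; rfl
      exact this n a

theorem stretch_add (l : ℝ) (a b : ℂ) : stretch l (a + b) = stretch l a + stretch l b := by
  apply Complex.ext <;> simp [stretch] <;> ring

theorem stretch_neg (l : ℝ) (a : ℂ) : stretch l (-a) = -stretch l a := by
  apply Complex.ext <;> simp [stretch]

theorem stretch_stretch (l l' : ℝ) (a : ℂ) : stretch l (stretch l' a) = stretch (l * l') a := by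
  apply Complex.ext
  · simp only [stretch]; ring
  · simp only [stretch]; rw [mul_inv]; ring

theorem stretch_conj (l : ℝ) (a : ℂ) : stretch l (conj a) = conj (stretch l a) := by
  apply Complex.ext <;> simp [stretch]

theorem stretch_iterate (l : ℝ) (N : ℕ) : (stretch l)^[N] = stretch (l ^ N) := by
  induction N with
  | zero => funext a; apply Complex.ext <;> simp [stretch]
  | succ n ih =>
    funext a
    rw [Function.iterate_succ_apply, ih, stretch_stretch, pow_succ]

theorem conj_stretch_iterate (l : ℝ) (N : ℕ) :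
    (fun w => conj (stretch l w))^[2 * N] = stretch (l ^ (2 * N)) := by
  have h1 : (fun w => conj (stretch l w))^[2] = stretch (l ^ 2) := by
    funext a
    show conj (stretch l (conj (stretch l a))) = _
    rw [stretch_conj, Complex.conj_conj, stretch_stretch, sq]
  rw [Function.iterate_mul, h1, stretch_iterate, ← pow_mul]

/-! ### Powers of lifts -/

theorem IsHomeoLift.iterate {Γ : Subgroup SL(2, ℝ)} {f : ℍ → ℍ} (h : IsHomeoLift Γ f) (N : ℕ) :
    IsHomeoLift Γ f^[N] := by
  induction N with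
  | zero => exact ⟨(Homeomorph.refl ℍ).isHomeomorph, fun γ hγ => ⟨γ, hγ, fun z => rfl⟩,
      fun γ hγ => ⟨γ, hγ, fun z => rfl⟩⟩
  | succ n ih =>
    refine ⟨?_, fun γ hγ => ?_, fun γ hγ => ?_⟩
    · rw [Function.iterate_succ]
      exact ih.homeo.comp h.homeo
    · obtain ⟨γ1, hγ1, h1⟩ := h.normalizes γ hγ
      obtain ⟨γ2, hγ2, h2⟩ := ih.normalizes γ1 hγ1
      exact ⟨γ2, hγ2, fun z => by
        rw [Function.iterate_succ_apply, h1, h2, Function.iterate_succ_apply]⟩
    · obtain ⟨γ1, hγ1, h1⟩ := ih.normalizes' γ hγ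
      obtain ⟨γ2, hγ2, h2⟩ := h.normalizes' γ1 hγ1
      exact ⟨γ2, hγ2, fun z => by
        rw [Function.iterate_succ_apply, h2, h1, Function.iterate_succ_apply]⟩

theorem act_mul (γ δ : SL(2, ℝ)) (z : ℍ) : act (γ * δ) z = act γ (act δ z) := mul_smul γ δ z

/-- `f^m` inner implies `f^(m c)` inner. -/
theorem inner_iterate {Γ : Subgroup SL(2, ℝ)} {f : ℍ → ℍ} {m : ℕ} {δ : SL(2, ℝ)} (hδ : δ ∈ Γ)
    (h : ∀ γ ∈ Γ, ∀ z : ℍ, f^[m] (act γ z) = act (δ * γ * δ⁻¹) (f^[m] z)) (c : ℕ) :
    ∃ δ' ∈ Γ, ∀ γ ∈ Γ, ∀ z : ℍ, f^[m * c] (act γ z) = act (δ' * γ * δ'⁻¹) (f^[m * c] z) := by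
  induction c with
  | zero => exact ⟨1, Γ.one_mem, fun γ _ z => by simp⟩
  | succ c ih =>
    obtain ⟨δ', hδ', h'⟩ := ih
    refine ⟨δ * δ', Γ.mul_mem hδ hδ', fun γ hγ z => ?_⟩
    have e1 : f^[m * (c + 1)] = f^[m] ∘ f^[m * c] := by
      rw [mul_add, mul_one, add_comm, Function.iterate_add]
    rw [e1, Function.comp_apply, h' γ hγ, h _ (Γ.mul_mem (Γ.mul_mem hδ' hγ) (Γ.inv_mem hδ')),
      Function.comp_apply]
    congr 1
    group

end Pool.Agent.ANO2.Stmt
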